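import Pool.Agent.Lib.MP_ab8df0_nt.A.Twr

/-! Square classes with even valuation outside 6. -/

namespace Pool.Agent.Lib.MP_ab8df0_nt.A.K2

open Pool.Agent.Lib.MP_ab8df0_nt.A

/-- Lower coefficients of the polynomial. -/
def fl : List ℤ := [-2, 0, 0]

/-- The modulus. -/
def m : ℕ := nat_lit 0x152dc8cfce1ddc99f

/-- The roots modulo the modulus. -/
def ρ : List ℕ := [nat_lit 0x61eeab83f2ec88b4, nat_lit 0xebe965a96adaf794, nat_lit 0x5047bcf84164957]

theorem a0 : CovA fl 6 2 m 2 ρ 0 (0 + 3) := covA _ _ _ _ _ _ _ _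
  [(0, [])] (by decide +kernel)

theorem ra {F : Type*} [Field F] [NumberField F] {α : NumberField.RingOfIntegers F} (h : Gen α fl) :
    Range F 6 2 0 3 :=
  have hs : splitOK fl m 2 ρ = true := by decide +kernel
  a0.range h hs

open NumberField IsDedekindDomain

variable {F : Type*} [Field F] [NumberField F] {α : 𝓞 F}

theorem c2 (h : Gen α fl) : Cnt F 2 1 :=
  h.cnt (m := m) (r := 2) (ρ := ρ) Nat.prime_two (l := [(⟨[0], 3, 1, [1], [0, 1]⟩, 1)]) (by decide +kernel)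

theorem c3 (h : Gen α fl) : Cnt F 3 1 :=
  h.cnt (m := m) (r := 2) (ρ := ρ) Nat.prime_three (l := [(⟨[2], 3, 1, [1], [1, 1]⟩, 1)]) (by decide +kernel)

/-- The generators. -/
def g : Fin 4 → List ℤ := ![[-1],
  [0, 1],
  [1, 1],
  [-1, 1]]

theorem SU (h : Gen α fl) {ξ : F} (h0 : ξ ≠ 0)
    (hξ : ∀ v : HeightOneSpectrum (𝓞 F), ((6 : ℕ) : 𝓞 F) ∉ v.asIdeal →
      ∃ k : ℤ, v.valuation F ξ = WithZero.exp (2 * k)) :
    ∃ (e : Fin 4 → Bool) (u : F), ξ = (∏ i, if e i then ev (α : F) (g i) else 1) * u ^ 2 :=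
  h.SU (M := 2) (m := m) (r := 2) (ρ := ρ) (D := 108) (dF := 108)
    (bs := [([1], 1, [-1, 3, -3]), ([0, 1], 1, [-2, 0, 0]), ([0, 0, 1], 1, [-4, 0, 0])])
    (K := 10000000000000000000000000000000000000000) (E := 10000000000000000000000000000000000000000) (zs := [⟨-6299605249474365823836053036391141752851, 10911236359717214035600726141898088813259⟩, ⟨-6299605249474365823836053036391141752851, -10911236359717214035600726141898088813259⟩]) (T := 10)
    (c := ![(71, 49), (109, 103), (41, 5), (89, 16)]) (by decide +kernel)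
    ((c2 h).mul (c3 h)) (ra h) h0 hξ

instance : Fact (Irreducible (mq fl)) :=
  ⟨irr_of_eis Nat.prime_two (by decide +kernel)⟩

theorem re0 (h : Gen α fl) : ∃ φ : F →+* ℝ, ((1259921049894873164767210607278 : ℤ) : ℝ) / ((10 ^ 30 : ℕ) : ℝ) < φ α ∧
    φ α < ((1259921049894873164767210607279 : ℤ) : ℝ) / ((10 ^ 30 : ℕ) : ℝ) := h.real (by decide +kernel)


end Pool.Agent.Lib.MP_ab8df0_nt.A.K2
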